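import Pool.Agent.H937.QS.Stm

/-!
Project QS of helper937 (MP_b525bf_ag), task SPAN: finitely many functions span all functions over
the symmetric functions (helper263).
-/

set_option autoImplicit false

open scoped Matrix TensorProduct
open Pool.Agent.H937.QS
universe u
namespace Pool.Agent.H263.QS.SPAN

section

variable {k B M : Type u} [Field k] [CommRing B] [Algebra k B] [Field M] [Algebra k M] {n : ℕ}
  (ev : B →ₐ[k] (Fin n → M))

theorem integral (b : B) : IsIntegral (Esym k ev) (ev b) := by
  have h1 : (∏ q, (Polynomial.X - Polynomial.C (ev b q))) ∈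
      Polynomial.lifts (algebraMap (Esym k ev) M) := by
    rw [Polynomial.lifts_iff_coeff_lifts]
    intro m
    exact ⟨⟨_, Algebra.subset_adjoin ⟨b, m, rfl⟩⟩, rfl⟩
  have h2 : (∏ q, (Polynomial.X - Polynomial.C (ev b q))).Monic :=
    Polynomial.monic_prod_of_monic _ _ fun q _ => Polynomial.monic_X_sub_C _
  obtain ⟨p, hp1, -, hp2⟩ := Polynomial.lifts_and_natDegree_eq_and_monic h1 h2
  refine ⟨p, hp2, ?_⟩
  funext q
  have h3 : (Polynomial.eval₂ (algebraMap (Esym k ev) (Fin n → M)) (ev b) p) q =
      Polynomial.eval₂ (algebraMap (Esym k ev) M) (ev b q) p := by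
    have h4 := Polynomial.hom_eval₂ p (algebraMap (Esym k ev) (Fin n → M))
      (Pi.evalRingHom (fun _ : Fin n => M) q) (ev b)
    exact h4
  rw [h3, Polynomial.eval₂_eq_eval_map, hp1, Polynomial.eval_prod, Pi.zero_apply]
  exact Finset.prod_eq_zero (Finset.mem_univ q) (by simp)

theorem span_eq (T : Finset B) (hT : Algebra.adjoin k (T : Set B) = ⊤) :
    Submodule.span (Esym k ev) (Set.range ev) =
      Subalgebra.toSubmodule (Algebra.adjoin (Esym k ev) (ev '' (T : Set B))) := by
  apply le_antisymm
  · rw [Submodule.span_le]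
    rintro _ ⟨b, rfl⟩
    have hb : b ∈ Algebra.adjoin k (T : Set B) := by
      rw [hT]
      exact Algebra.mem_top
    show ev b ∈ Algebra.adjoin (Esym k ev) (ev '' (T : Set B))
    induction hb using Algebra.adjoin_induction with
    | mem x hx => exact Algebra.subset_adjoin ⟨x, hx, rfl⟩
    | algebraMap r =>
      rw [AlgHom.commutes]
      have : algebraMap k (Fin n → M) r =
          algebraMap (Esym k ev) (Fin n → M) (algebraMap k (Esym k ev) r) := rfl
      rw [this]
      exact Subalgebra.algebraMap_mem _ _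
    | add x y _ _ hx hy =>
      rw [map_add]
      exact add_mem hx hy
    | mul x y _ _ hx hy =>
      rw [map_mul]
      exact mul_mem hx hy
  · rw [Algebra.adjoin_eq_span]
    refine Submodule.span_mono ?_
    have : Submonoid.closure (ev '' (T : Set B)) ≤ MonoidHom.mrange (ev : B →* (Fin n → M)) := by
      rw [Submonoid.closure_le]
      rintro _ ⟨b, -, rfl⟩
      exact ⟨b, rfl⟩
    intro x hx
    obtain ⟨b, hb⟩ := this hx
    exact ⟨b, hb⟩

end

theorem t_SPAN : S_SPAN.{u} := by
  intro k B M _ _ _ _ _ _ n ev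
  obtain ⟨T, hT⟩ := (Algebra.FiniteType.out : (⊤ : Subalgebra k B).FG)
  have hfg : (Submodule.span (Esym k ev) (Set.range ev)).FG := by
    rw [span_eq ev T hT]
    refine fg_adjoin_of_finite (T.finite_toSet.image _) ?_
    rintro _ ⟨b, -, rfl⟩
    exact integral ev b
  obtain ⟨s, hs1, hs2⟩ := Submodule.fg_span_iff_fg_span_finset_subset _ |>.mp hfg
  choose g hg using fun x : s => hs1 x.2
  set e := s.equivFin with he
  refine ⟨s.card, Fin.cons 1 fun i => g (e.symm i), rfl, fun b => ?_⟩
  have hb : ev b ∈ Submodule.span (Esym k ev) (s : Set (Fin n → M)) := by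
    rw [← hs2]
    exact Submodule.subset_span ⟨b, rfl⟩
  rw [Submodule.mem_span_finset] at hb
  obtain ⟨f, -, hf⟩ := hb
  refine ⟨Fin.cons 0 fun i => (f (e.symm i) : M), ?_, ?_⟩
  · intro l
    refine Fin.cases ?_ (fun i => ?_) l
    · exact zero_mem _
    · exact (f (e.symm i)).2
  · intro q
    rw [Fin.sum_univ_succ]
    simp only [Fin.cons_zero, Fin.cons_succ, zero_mul, zero_add, hg]
    rw [← hf, Finset.sum_apply, ← Finset.sum_coe_sort s]
    rw [← e.symm.sum_comp]
    rfl

end Pool.Agent.H263.QS.SPAN
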